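import Mathlib

/-!
Final algebra: if for every `a` the map `T y ↦ T (a y) - T a * T y` is a derivation of the
semiprime ring `B`, then `T (a * a) = T a * T a` and `T` is a Jordan map.
-/

namespace Pool.Agent.Lib.Pa5bb4a2

theorem semiprime_of_jacobson {B : Type*} [Ring B] (h : (⊥ : Ideal B).jacobson = ⊥) {b : B}
    (hb : ∀ c, b * c * b = 0) : b = 0 := by
  have h1 : b ∈ (⊥ : Ideal B).jacobson := by
    rw [Ideal.mem_jacobson_iff]
    intro y
    refine ⟨1 - y * b, ?_⟩
    have h2 : (1 - y * b) * y * b + (1 - y * b) - 1 = - (y * (b * y * b)) := by noncomm_ring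
    rw [h2, hb y, mul_zero, neg_zero]
    exact Submodule.zero_mem _
  rw [h] at h1
  simpa using h1

/-- If `D` and `D² + 2 t D` are derivations of the semiprime ring `B`, then `D t = 0`. -/
theorem der_eq_zero {B : Type*} [Ring B] (hB : ∀ b : B, (∀ c, b * c * b = 0) → b = 0)
    (D : B →+ B) (t : B) (hD : ∀ x y, D (x * y) = D x * y + x * D y)
    (hD2 : ∀ x y, D (D (x * y)) + (t + t) * D (x * y) =
      (D (D x) + (t + t) * D x) * y + x * (D (D y) + (t + t) * D y))
    (h2 : ∀ b : B, b + b = 0 → b = 0) : D t = 0 := by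
  have key : ∀ x y, (D x + (t * x - x * t)) * D y = 0 := by
    intro x y
    apply h2
    have e := hD2 x y
    rw [hD x y, map_add, hD (D x) y, hD x (D y)] at e
    have e2 : (D x + (t * x - x * t)) * D y + (D x + (t * x - x * t)) * D y =
        (D (D x) * y + D x * D y + (D x * D y + x * D (D y)) + (t + t) * (D x * y + x * D y)) -
        ((D (D x) + (t + t) * D x) * y + x * (D (D y) + (t + t) * D y)) := by noncomm_ring
    rw [e2, e, sub_self]
  have key1 : ∀ y, D t * D y = 0 := by
    intro y
    have := key t y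
    rwa [sub_self, add_zero] at this
  have key2 : ∀ y z, D t * y * D z = 0 := by
    intro y z
    have e := key1 (y * z)
    rw [hD, mul_add, ← mul_assoc, key1 y, zero_mul, zero_add, ← mul_assoc] at e
    exact e
  exact hB _ fun c => key2 c t

/-- The final algebraic step. -/
theorem sq_of_derivations {A B : Type*} [Ring A] [Ring B] (T : A →+ B)
    (hs : Function.Surjective T) (hB : ∀ b : B, (∀ c, b * c * b = 0) → b = 0)
    (h2 : ∀ b : B, b + b = 0 → b = 0)
    (D : A → B →+ B) (hDT : ∀ a y, D a (T y) = T (a * y) - T a * T y)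
    (hder : ∀ a x y, D a (x * y) = D a x * y + x * D a y) (a : A) :
    T (a * a) = T a * T a := by
  have hT : ∀ b y, T (b * y) = D b (T y) + T b * T y := by
    intro b y
    rw [hDT]; abel
  have hDt : D a (T a) = 0 := by
    refine der_eq_zero hB (D a) (T a) (hder a) ?_ h2
    -- D (a * a) = D a ^ 2 + 2 T a * D a
    have hsq : ∀ x, D (a * a) x = D a (D a x) + (T a + T a) * D a x := by
      intro x
      obtain ⟨y, rfl⟩ := hs x
      have e1 : T (a * a * y) = D a (D a (T y) + T a * T y) + T a * (D a (T y) + T a * T y) := by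
        rw [mul_assoc, hT a (a * y), hT a y]
      rw [hDT, e1, map_add, hder, hT a a]
      noncomm_ring
    intro x y
    rw [← hsq, ← hsq, ← hsq, hder]
  have := hDT a a
  rw [hDt] at this
  exact (sub_eq_zero.mp this.symm)

/-- Complex version, with the polarised conclusion. -/
theorem jordan_of_derivations {A B : Type*} [Ring A] [Algebra ℂ A] [Ring B] [Algebra ℂ B]
    (T : A →ₗ[ℂ] B) (hs : Function.Surjective T)
    (hJ : (⊥ : Ideal B).jacobson = ⊥)
    (D : A → B → B) (hadd : ∀ a x y, D a (x + y) = D a x + D a y)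
    (hDT : ∀ a y, D a (T y) = T (a * y) - T a * T y)
    (hder : ∀ a x y, D a (x * y) = D a x * y + x * D a y) (x y : A) :
    T (x * y + y * x) = T x * T y + T y * T x := by
  have hsq : ∀ a, T (a * a) = T a * T a := by
    refine sq_of_derivations T.toAddMonoidHom hs (fun b hb => semiprime_of_jacobson hJ hb) ?_
      (fun a => AddMonoidHom.mk' (D a) (hadd a)) hDT hder
    intro b hb
    have h1 : (2 : ℂ) • b = 0 := by rw [two_smul]; exact hb
    exact (smul_eq_zero_iff_right (two_ne_zero)).mp h1
  have h1 := hsq (x + y)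
  have e1 : (x + y) * (x + y) = x * x + (x * y + y * x) + y * y := by noncomm_ring
  rw [e1, map_add, map_add, hsq x, hsq y, map_add T x y] at h1
  have e2 : (T x + T y) * (T x + T y) = T x * T x + (T x * T y + T y * T x) + T y * T y := by
    noncomm_ring
  rw [e2] at h1
  exact add_left_cancel (add_right_cancel h1)

end Pool.Agent.Lib.Pa5bb4a2
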