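import Mathlib

/-!
Graves step: if `exp H` maps the set `U` into the invertible elements for every `H` in the closed
subspace `g`, and `x` is a limit of elements of `U` lying in the maximal left ideal `J`, then the
elements `H x + x * c` (`H` in `g`, `c` arbitrary) do not cover the quotient by `J`.
-/

open Filter Topology NormedSpace

namespace Pool.Agent.Lib.Pa5bb4a2

variable {B : Type*} [NormedRing B] [NormedAlgebra ℂ B] [CompleteSpace B]

theorem strict_aux {E : Type*} [NormedAddCommGroup E] [NormedSpace ℂ E]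
    (ι : E →L[ℂ] (B →L[ℂ] B)) (pc py : E →L[ℂ] B) (x : B) :
    ∃ D : E →L[ℂ] B, (∀ e, D e = ι e x + py e + x * pc e) ∧
      HasStrictFDerivAt (fun e : E => (exp (ι e) : B →L[ℂ] B) (x + py e) * (1 + pc e)) D 0 := by
  have h1 : HasStrictFDerivAt (fun e : E => (exp (ι e) : B →L[ℂ] B))
      ((1 : (B →L[ℂ] B) →L[ℂ] (B →L[ℂ] B)).comp ι) 0 := by
    have h := (hasStrictFDerivAt_exp_zero (𝕂 := ℂ) (𝔸 := B →L[ℂ] B))
    have h0 : ι 0 = 0 := map_zero _
    rw [← h0] at h
    exact h.comp (0 : E) (ι.hasStrictFDerivAt (x := (0 : E)))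
  have h2 : HasStrictFDerivAt (fun e : E => x + py e) py 0 :=
    (py.hasStrictFDerivAt (x := (0 : E))).const_add x
  have h3 := h1.clm_apply h2
  have h4 : HasStrictFDerivAt (fun e : E => (1 : B) + pc e) pc 0 :=
    (pc.hasStrictFDerivAt (x := (0 : E))).const_add (1 : B)
  have h5 := h3.mul' h4
  refine ⟨_, ?_, h5⟩
  intro e
  simp [exp_zero]
  abel

theorem graves_step (U : Set B) (g : Submodule ℂ (B →L[ℂ] B))
    (hg : IsClosed (g : Set (B →L[ℂ] B)))
    (hU : ∀ H ∈ g, ∀ w ∈ U, IsUnit ((exp H : B →L[ℂ] B) w))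
    (J : Ideal B) [hJ : J.IsMaximal] (x : B) (hxJ : x ∈ J) (hxU : x ∈ closure U) :
    ∃ b : B, ∀ H ∈ g, ∀ c : B, b - (H x + x * c) ∉ J := by
  by_contra hcon
  push Not at hcon
  -- the quotient
  let J' : Submodule ℂ B := J.restrictScalars ℂ
  have hJc : IsClosed (J' : Set B) := (Ideal.IsMaximal.isClosed (I := J) : IsClosed (J : Set B))
  have : IsClosed (J' : Set B) := hJc
  have : IsClosed (J'.toAddSubgroup : Set B) := hJc
  have : CompleteSpace g := hg.completeSpace_coe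
  let π : B →L[ℂ] (B ⧸ J') := J'.mkQL
  have hπ : ∀ b, π b = 0 ↔ b ∈ J := by
    intro b
    change (Submodule.Quotient.mk b : B ⧸ J') = 0 ↔ _
    rw [Submodule.Quotient.mk_eq_zero]
    rfl
  have hπs : Function.Surjective π := Submodule.Quotient.mk_surjective J'
  -- the map
  let ιg : (g × B) × B →L[ℂ] (B →L[ℂ] B) := g.subtypeL.comp
    ((ContinuousLinearMap.fst ℂ g B).comp (ContinuousLinearMap.fst ℂ (g × B) B))
  let pc : (g × B) × B →L[ℂ] B :=
    (ContinuousLinearMap.snd ℂ g B).comp (ContinuousLinearMap.fst ℂ (g × B) B)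
  let py : (g × B) × B →L[ℂ] B := ContinuousLinearMap.snd ℂ (g × B) B
  obtain ⟨D, hD, h5⟩ := strict_aux (E := (g × B) × B) ιg pc py x
  have h6 := (π.hasStrictFDerivAt (x := (exp (ιg 0) : B →L[ℂ] B) (x + py 0) * (1 + pc 0))).comp
    (0 : (g × B) × B) h5
  have h7 := h6.prodMk (py.hasStrictFDerivAt (x := (0 : (g × B) × B)))
  have hmap := h7.map_nhds_eq_of_surj (by
    rw [LinearMap.range_eq_top]
    rintro ⟨q, y⟩
    obtain ⟨b, rfl⟩ := hπs q
    obtain ⟨H, hH, c, hc⟩ := hcon (b - y)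
    refine ⟨((⟨H, hH⟩, c), y), ?_⟩
    have e1 : ιg ((⟨H, hH⟩, c), y) = H := rfl
    have e2 : pc ((⟨H, hH⟩, c), y) = c := rfl
    have e3 : py ((⟨H, hH⟩, c), y) = y := rfl
    have e4 : π (H x + y + x * c) = π b := by
      rw [← sub_eq_zero, ← map_sub, hπ]
      have : H x + y + x * c - b = - (b - y - (H x + x * c)) := by abel
      rw [this]
      exact J.neg_mem hc
    have e5 := hD ((⟨H, hH⟩, c), y)
    rw [e1, e2, e3] at e5
    refine Prod.ext ?_ ?_
    · change π (D ((⟨H, hH⟩, c), y)) = π b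
      rw [e5, e4]
    · rfl)
  have hι0 : ιg 0 = 0 := ContinuousLinearMap.map_zero ιg
  have hpc0 : pc 0 = 0 := ContinuousLinearMap.map_zero pc
  have hpy0 : py 0 = 0 := ContinuousLinearMap.map_zero py
  have hx0 : π ((exp (ιg 0) : B →L[ℂ] B) (x + py 0) * (1 + pc 0)) = 0 := by
    rw [hι0, hpc0, hpy0, exp_zero, add_zero, add_zero, mul_one, hπ]
    exact hxJ
  -- neighbourhood of zero where `1 + c` is invertible
  have hnb : ∀ᶠ e : (g × B) × B in 𝓝 0, IsUnit (1 + pc e) := by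
    have hc : Continuous fun e : (g × B) × B => 1 + pc e := by fun_prop
    have ho : IsOpen ((fun e : (g × B) × B => 1 + pc e) ⁻¹' {b | IsUnit b}) :=
      Units.isOpen.preimage hc
    have h0 : (0 : (g × B) × B) ∈ ((fun e : (g × B) × B => 1 + pc e) ⁻¹' {b | IsUnit b}) := by
      simp [hpc0]
    exact ho.mem_nhds h0
  have himg := Filter.image_mem_map (m := fun e : (g × B) × B =>
    (π ((exp (ιg e) : B →L[ℂ] B) (x + py e) * (1 + pc e)), py e)) hnb
  have hmap' : map (fun e : (g × B) × B =>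
    (π ((exp (ιg e) : B →L[ℂ] B) (x + py e) * (1 + pc e)), py e)) (𝓝 0) = 𝓝 (0, 0) := by
    have h := hmap
    rw [hx0, hpy0] at h
    exact h
  rw [hmap'] at himg
  -- small y with x + y in U
  have hy : ∀ᶠ y in 𝓝 (0 : B), ((0 : B ⧸ J'), y) ∈ (fun e : (g × B) × B =>
    (π ((exp (ιg e) : B →L[ℂ] B) (x + py e) * (1 + pc e)), py e)) '' {e | IsUnit (1 + pc e)} := by
    have hcont : Continuous fun y : B => ((0 : B ⧸ J'), y) := by fun_prop
    have := hcont.continuousAt (x := (0 : B))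
    exact this.eventually himg
  have hy' : ∀ᶠ w in 𝓝 x, ((0 : B ⧸ J'), w - x) ∈ (fun e : (g × B) × B =>
    (π ((exp (ιg e) : B →L[ℂ] B) (x + py e) * (1 + pc e)), py e)) '' {e | IsUnit (1 + pc e)} := by
    have hcont : Continuous fun w : B => w - x := by fun_prop
    have h := hcont.continuousAt (x := x)
    have hxx : x - x = 0 := sub_self x
    rw [ContinuousAt, hxx] at h
    exact h.eventually hy
  obtain ⟨w, hw, hwU⟩ := (mem_closure_iff_frequently.mp hxU).and_eventually hy' |>.exists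
  obtain ⟨⟨⟨⟨H, hH⟩, c⟩, y⟩, he, heq⟩ := hwU
  have hy0 : y = w - x := congrArg Prod.snd heq
  have h0 : π ((exp H : B →L[ℂ] B) (x + y) * (1 + c)) = 0 := congrArg Prod.fst heq
  rw [hπ, hy0, add_sub_cancel] at h0
  have hu1 := hU H hH w hw
  have hu : IsUnit ((exp H : B →L[ℂ] B) w * (1 + c)) := hu1.mul he
  exact hJ.ne_top (Ideal.eq_top_of_isUnit_mem J h0 hu)

end Pool.Agent.Lib.Pa5bb4a2
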