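import Mathlib
import Pool.Agent.Lib.Pa5bb4a2.Graves

/-!
A two vector density lemma for maximal left ideals of a complex Banach algebra (Schur lemma plus
nonempty spectrum), and the algebraic core of Lemma A.
-/

open NormedSpace

namespace Pool.Agent.Lib.Pa5bb4a2

section ring

variable {B : Type*} [Ring B]

/-- In a maximal left ideal `J`, if `u ∉ J` then every `b` is `w * u` modulo `J`. -/
theorem exists_mul_sub_mem (J : Ideal B) [hJ : J.IsMaximal] {u : B} (hu : u ∉ J) (b : B) :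
    ∃ w, b - w * u ∈ J := by
  have h1 : J ⊔ Ideal.span {u} = ⊤ := by
    rcases hJ.eq_of_le (J := J ⊔ Ideal.span {u}) |> fun h => em (J ⊔ Ideal.span {u} = ⊤) with h | h
    · exact h
    · exfalso
      have h2 := hJ.eq_of_le h le_sup_left
      exact hu (h2 ▸ (Ideal.mem_sup_right (Ideal.mem_span_singleton_self u)))
  have h2 : b ∈ J ⊔ Ideal.span {u} := h1 ▸ Submodule.mem_top
  obtain ⟨j, hj, k, hk, rfl⟩ := Submodule.mem_sup.mp h2
  obtain ⟨w, rfl⟩ := Ideal.mem_span_singleton'.mp hk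
  exact ⟨w, by rwa [add_sub_cancel_right]⟩

end ring

variable {B : Type*} [NormedRing B] [NormedAlgebra ℂ B] [CompleteSpace B]

/-- If right multiplication by `c` maps the maximal left ideal `J` to itself, then `c` is a scalar
modulo `J`. -/
theorem scalar_of_idealizer (J : Ideal B) [hJ : J.IsMaximal] (c : B) (hc : ∀ b ∈ J, b * c ∈ J) :
    ∃ μ : ℂ, c - algebraMap ℂ B μ ∈ J := by
  by_contra hcon
  push Not at hcon
  let J' : Submodule ℂ B := J.restrictScalars ℂ
  have hJc : IsClosed (J' : Set B) := (Ideal.IsMaximal.isClosed (I := J) : IsClosed (J : Set B))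
  have : IsClosed (J' : Set B) := hJc
  have : IsClosed (J'.toAddSubgroup : Set B) := hJc
  have hne : ∃ b : B, b ∉ J := ⟨1, fun h => hJ.ne_top ((Ideal.eq_top_iff_one J).mpr h)⟩
  have hnt : Nontrivial (B ⧸ J') := by
    rw [Submodule.Quotient.nontrivial_iff]
    intro h
    obtain ⟨b, hb⟩ := hne
    have : b ∈ J' := h ▸ Submodule.mem_top
    exact hb this
  let R : B →L[ℂ] B := (ContinuousLinearMap.mul ℂ B).flip c
  have hR : ∀ b, R b = b * c := fun b => rfl
  have hmk : ∀ b : B, (Submodule.Quotient.mk b : B ⧸ J') = 0 ↔ b ∈ J := by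
    intro b
    rw [Submodule.Quotient.mk_eq_zero]
    rfl
  -- the induced operator
  have hle : J' ≤ J'.comap (R : B →ₗ[ℂ] B) := fun b hb => hc b hb
  let T0 : (B ⧸ J') →ₗ[ℂ] (B ⧸ J') := J'.mapQ J' (R : B →ₗ[ℂ] B) hle
  have hT0 : ∀ b : B, T0 (Submodule.Quotient.mk b) = Submodule.Quotient.mk (b * c) := fun b => rfl
  have hcont : Continuous T0 := by
    have hq : IsOpenQuotientMap (J'.mkQL : B → B ⧸ J') := Submodule.isOpenQuotientMap_mkQ J'
    rw [hq.isQuotientMap.continuous_iff]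
    have : (T0 ∘ (J'.mkQL : B → B ⧸ J')) = fun b => J'.mkQL (R b) := rfl
    rw [this]
    exact J'.mkQL.continuous.comp R.continuous
  let T : (B ⧸ J') →L[ℂ] (B ⧸ J') := ⟨T0, hcont⟩
  obtain ⟨μ, hμ⟩ := spectrum.nonempty (A := (B ⧸ J') →L[ℂ] (B ⧸ J')) (a := T)
  apply hμ
  have hval : ∀ b : B, (algebraMap ℂ ((B ⧸ J') →L[ℂ] (B ⧸ J')) μ - T) (Submodule.Quotient.mk b)
      = - Submodule.Quotient.mk (b * (c - algebraMap ℂ B μ)) := by
    intro b
    rw [sub_apply]
    have e1 : (algebraMap ℂ ((B ⧸ J') →L[ℂ] (B ⧸ J')) μ) (Submodule.Quotient.mk b)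
        = μ • (Submodule.Quotient.mk b : B ⧸ J') := rfl
    have e2 : T (Submodule.Quotient.mk b) = Submodule.Quotient.mk (b * c) := rfl
    rw [e1, e2, ← Submodule.Quotient.mk_smul, ← Submodule.Quotient.mk_sub,
      ← Submodule.Quotient.mk_neg, mul_sub, ← Algebra.commutes, ← Algebra.smul_def, neg_sub]
  have hμJ := hcon μ
  rw [spectrum.mem_resolventSet_iff, ContinuousLinearMap.isUnit_iff_bijective]
  constructor
  · rw [injective_iff_map_eq_zero]
    intro q
    obtain ⟨b, rfl⟩ := Submodule.Quotient.mk_surjective J' q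
    intro hb
    rw [hval, neg_eq_zero, hmk] at hb
    rw [hmk]
    by_contra hbJ
    obtain ⟨w, hw⟩ := exists_mul_sub_mem J hbJ 1
    have h1 : (1 - w * b) * (c - algebraMap ℂ B μ) ∈ J := by
      rw [mul_sub]
      refine J.sub_mem (hc _ hw) ?_
      rw [← Algebra.commutes]
      exact J.mul_mem_left _ hw
    have h2 : w * (b * (c - algebraMap ℂ B μ)) ∈ J := J.mul_mem_left _ hb
    have h3 : c - algebraMap ℂ B μ = (1 - w * b) * (c - algebraMap ℂ B μ) +
        w * (b * (c - algebraMap ℂ B μ)) := by noncomm_ring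
    exact hμJ (h3 ▸ J.add_mem h1 h2)
  · intro q
    obtain ⟨b, rfl⟩ := Submodule.Quotient.mk_surjective J' q
    obtain ⟨w, hw⟩ := exists_mul_sub_mem J hμJ b
    refine ⟨Submodule.Quotient.mk (-w), ?_⟩
    rw [hval, ← Submodule.Quotient.mk_neg, ← sub_eq_zero, ← Submodule.Quotient.mk_sub, hmk]
    have : -(-w * (c - algebraMap ℂ B μ)) - b = - (b - w * (c - algebraMap ℂ B μ)) := by
      noncomm_ring
    rw [this]
    exact J.neg_mem hw

/-- Two vector density. -/
theorem two_density (J : Ideal B) [hJ : J.IsMaximal] {u v : B} (hu : u ∉ J)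
    (h : ∀ w, w * u ∈ J → w * v ∈ J) : ∃ μ : ℂ, v - μ • u ∈ J := by
  obtain ⟨s, hs⟩ := exists_mul_sub_mem J hu 1
  have hc : ∀ b ∈ J, b * (s * v) ∈ J := by
    intro b hb
    rw [← mul_assoc]
    apply h
    have e : b * s * u = b - b * (1 - s * u) := by noncomm_ring
    rw [e]
    exact J.sub_mem hb (J.mul_mem_left _ hs)
  obtain ⟨μ, hμ⟩ := scalar_of_idealizer J (s * v) hc
  refine ⟨μ, ?_⟩
  have h1 : (u * s - 1) * v ∈ J := by
    apply h
    have e : (u * s - 1) * u = - (u * (1 - s * u)) := by noncomm_ring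
    rw [e]
    exact J.neg_mem (J.mul_mem_left _ hs)
  have h2 : u * (s * v - algebraMap ℂ B μ) ∈ J := J.mul_mem_left _ hμ
  have h3 : v - μ • u = - ((u * s - 1) * v) + u * (s * v - algebraMap ℂ B μ) := by
    rw [mul_sub, ← Algebra.commutes, ← Algebra.smul_def]
    noncomm_ring
  rw [h3]
  exact J.add_mem (J.neg_mem h1) h2

/-- The algebraic core of Lemma A. -/
theorem lemmaA_algebra (J : Ideal B) [hJ : J.IsMaximal] (x : B) (hx : ∃ c, x * c ∉ J)
    (Θ : B →ₗ[ℂ] B) (F : B →ₗ[ℂ] ℂ) (hF : F ≠ 0) (hFJ : ∀ j ∈ J, F j = 0)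
    (hFx : ∀ c, F (x * c) = 0) (h1 : ∀ a, F (a * Θ a) = 0) (h2 : ∀ a, F (a * a * Θ a) = 0)
    (v : B) : Θ v ∈ J := by
  have p1 : ∀ a b, F (a * Θ b) + F (b * Θ a) = 0 := by
    intro a b
    have e := h1 (a + b)
    rw [map_add, add_mul, mul_add, mul_add, map_add, map_add, map_add, h1 a, h1 b] at e
    linear_combination e
  have p2 : ∀ a b c, F ((a * b + b * a) * Θ c) + F ((b * c + c * b) * Θ a) +
      F ((c * a + a * c) * Θ b) = 0 := by
    intro a b c
    have e3 := h2 (a + b + c)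
    have e12 := h2 (a + b)
    have e23 := h2 (b + c)
    have e13 := h2 (a + c)
    have e1 := h2 a
    have e2 := h2 b
    have e4 := h2 c
    simp only [map_add, add_mul, mul_add] at e3 e12 e23 e13 ⊢
    linear_combination e3 - e12 - e23 - e13 + e1 + e2 + e4
  -- if `F (b * t) = 0` for all `b` then `t ∈ J`
  have gen : ∀ t, (∀ b, F (b * t) = 0) → t ∈ J := by
    intro t ht
    by_contra htJ
    apply hF
    ext b
    obtain ⟨w, hw⟩ := exists_mul_sub_mem J htJ b
    have := hFJ _ hw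
    rw [map_sub, ht w, sub_zero] at this
    simpa using this
  have s1 : ∀ w, (∀ c, F (w * c) = 0) → Θ w ∈ J := by
    intro w hw
    apply gen
    intro b
    have e := p1 w b
    rwa [hw, zero_add] at e
  have s2 : ∀ u v w, F (u * (x * w) * Θ v) + F (v * (x * w) * Θ u) = 0 := by
    intro u v w
    have hw : ∀ c, F (x * w * c) = 0 := fun c => by rw [mul_assoc]; exact hFx _
    have hΘ := s1 _ hw
    have e := p2 u (x * w) v
    have e1 : F ((u * (x * w) + x * w * u) * Θ v) = F (u * (x * w) * Θ v) := by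
      rw [add_mul, map_add, mul_assoc (x * w) u, hw, add_zero]
    have e2 : F ((x * w * v + v * (x * w)) * Θ u) = F (v * (x * w) * Θ u) := by
      rw [add_mul, map_add, mul_assoc (x * w) v, hw, zero_add]
    have e3 : F ((v * u + u * v) * Θ (x * w)) = 0 := hFJ _ (J.mul_mem_left _ hΘ)
    rw [e1, e2, e3, add_zero] at e
    exact e
  by_contra hv
  -- `F (u x η) = 0` whenever `F (u x w t) = 0` for all `w`, for some `t ∉ J`
  have gen2 : ∀ u t, t ∉ J → (∀ w, F (u * (x * w) * t) = 0) → ∀ η, F (u * (x * η)) = 0 := by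
    intro u t ht hw η
    obtain ⟨w, hw'⟩ := exists_mul_sub_mem J ht η
    have e1 : F (u * x * (η - w * t)) = 0 := hFJ _ (J.mul_mem_left _ hw')
    have e2 : u * x * (η - w * t) = u * (x * η) - u * (x * w) * t := by noncomm_ring
    rw [e2, map_sub, hw, sub_zero] at e1
    exact e1
  have a1 : ∀ u, Θ u ∈ J → ∀ η, F (u * (x * η)) = 0 := by
    intro u hu
    apply gen2 u (Θ v) hv
    intro w
    have e := s2 u v w
    rwa [hFJ _ (J.mul_mem_left (v * (x * w)) hu), add_zero] at e
  have a2 : ∀ η, F (v * (x * η)) = 0 := by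
    apply gen2 v (Θ v) hv
    intro w
    have e := s2 v v w
    have e' : (2 : ℂ) * F (v * (x * w) * Θ v) = 0 := by linear_combination e
    exact (mul_eq_zero.mp e').resolve_left two_ne_zero
  have a3 : ∀ u η, F (u * (x * η)) = 0 := by
    intro u
    by_cases huJ : Θ u ∈ J
    · exact a1 u huJ
    by_cases hd : ∀ w, w * Θ u ∈ J → w * Θ v ∈ J
    · obtain ⟨μ, hμ⟩ := two_density J huJ hd
      have hμ0 : μ ≠ 0 := by
        rintro rfl
        rw [zero_smul, sub_zero] at hμ
        exact hv hμ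
      have h3 : Θ (u - μ⁻¹ • v) ∈ J := by
        have e : Θ (u - μ⁻¹ • v) = (-μ⁻¹) • (Θ v - μ • Θ u) := by
          rw [map_sub, map_smul, smul_sub, smul_smul]
          have : -μ⁻¹ * μ = -1 := by field_simp
          rw [this, neg_smul, neg_smul, one_smul]
          abel
        rw [e, Algebra.smul_def]
        exact J.mul_mem_left _ hμ
      intro η
      have e1 := a1 _ h3 η
      rw [sub_mul, map_sub, smul_mul_assoc, map_smul, a2 η, smul_zero, sub_zero] at e1
      exact e1
    · push Not at hd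
      obtain ⟨w0, hw1, hw2⟩ := hd
      apply gen2 u (w0 * Θ v) hw2
      intro w
      have e := s2 u v (w * w0)
      have e1 : F (v * (x * (w * w0)) * Θ u) = 0 := by
        have : v * (x * (w * w0)) * Θ u = v * x * w * (w0 * Θ u) := by noncomm_ring
        rw [this]
        exact hFJ _ (J.mul_mem_left _ hw1)
      rw [e1, add_zero] at e
      rw [← e]
      congr 1
      noncomm_ring
  obtain ⟨c, hc⟩ := hx
  exact hc (gen _ fun b => a3 b c)

/-- Lemma A, case where `x` does not act as zero on `B / J`. -/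
theorem lemmaA_ne (U : Set B) (g : Submodule ℂ (B →L[ℂ] B))
    (hg : IsClosed (g : Set (B →L[ℂ] B)))
    (hU : ∀ H ∈ g, ∀ w ∈ U, IsUnit ((exp H : B →L[ℂ] B) w))
    (J : Ideal B) [hJ : J.IsMaximal] (x : B) (hxJ : x ∈ J) (hxU : x ∈ closure U)
    (hx : ∃ c, x * c ∉ J) (E : B →L[ℂ] B)
    (hE1 : ∀ a, ∃ H ∈ g, ∀ y, H y = a * (E (a * y) - E a * y - a * E y))
    (hE2 : ∀ a, ∃ H ∈ g, ∀ y, H y = a * a * (E (a * y) - E a * y - a * E y)) (v : B) :
    E (v * x) - E v * x - v * E x ∈ J := by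
  obtain ⟨b, hb⟩ := graves_step U g hg hU J x hxJ hxU
  -- the subspace
  let P : Submodule ℂ B := g.map ((ContinuousLinearMap.apply ℂ B x : (B →L[ℂ] B) →L[ℂ] B) :
      (B →L[ℂ] B) →ₗ[ℂ] B) ⊔ (LinearMap.range (LinearMap.mulLeft ℂ x)) ⊔ J.restrictScalars ℂ
  have hbP : b ∉ P := by
    intro h
    obtain ⟨p, hp, j, hj, hpj⟩ := Submodule.mem_sup.mp h
    obtain ⟨q, hq, r, hr, hqr⟩ := Submodule.mem_sup.mp hp
    obtain ⟨H, hH, rfl⟩ := hq
    obtain ⟨c, rfl⟩ := hr
    apply hb H hH c
    have e1 : b - (H x + x * c) = j := by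
      rw [← hpj, ← hqr]
      change H x + x * c + j - (H x + x * c) = j
      abel
    rw [e1]
    exact hj
  obtain ⟨F, hFb, hFP⟩ := Submodule.exists_le_ker_of_notMem hbP
  have hF0 : F ≠ 0 := by
    rintro rfl
    exact hFb rfl
  have hFg : ∀ H ∈ g, F (H x) = 0 := by
    intro H hH
    apply hFP
    exact Submodule.mem_sup_left (Submodule.mem_sup_left ⟨H, hH, rfl⟩)
  have hFx : ∀ c, F (x * c) = 0 := by
    intro c
    apply hFP
    exact Submodule.mem_sup_left (Submodule.mem_sup_right ⟨c, rfl⟩)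
  have hFJ : ∀ j ∈ J, F j = 0 := by
    intro j hj
    apply hFP
    exact Submodule.mem_sup_right hj
  let Θ : B →ₗ[ℂ] B :=
    { toFun := fun a => E (a * x) - E a * x - a * E x
      map_add' := by
        intro a c
        simp only [add_mul, map_add]
        abel
      map_smul' := by
        intro m a
        simp only [smul_mul_assoc, map_smul, RingHom.id_apply, smul_sub] }
  have hΘ : ∀ a, Θ a = E (a * x) - E a * x - a * E x := fun a => rfl
  have := lemmaA_algebra J x hx Θ F hF0 hFJ hFx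
    (by
      intro a
      obtain ⟨H, hH, hH'⟩ := hE1 a
      rw [hΘ, ← hH']
      exact hFg H hH)
    (by
      intro a
      obtain ⟨H, hH, hH'⟩ := hE2 a
      rw [hΘ, ← hH']
      exact hFg H hH) v
  exact this

end Pool.Agent.Lib.Pa5bb4a2
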