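import Mathlib
import Pool.Agent.Lib.Pa5bb4a.SR
import Pool.Agent.Lib.Pa5bb4a2.Density

/-!
Zemanek's theorem: if adding `q` never increases the spectral radius then `q` lies in the radical.
-/

open NormedSpace Pool.Agent.Lib.Pa5bb4a

namespace Pool.Agent.Lib.Pa5bb4a2

variable {B : Type*} [NormedRing B] [NormedAlgebra ℂ B] [CompleteSpace B]

omit [CompleteSpace B] in
theorem SR_zero' : SR (0 : B) 0 := by
  intro μ hμ
  by_contra h
  apply hμ
  rw [spectrum.mem_resolventSet_iff, sub_zero]
  have : μ ≠ 0 := by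
    rintro rfl
    simp at h
  exact (IsUnit.mk0 μ this).map (algebraMap ℂ B)

omit [CompleteSpace B] in
theorem SR_neg' {x : B} {m : ℝ} (h : SR x m) : SR (-x) m := by
  intro μ hμ
  have : -μ ∈ spectrum ℂ x := by
    rw [← spectrum.neg_eq] at hμ
    simpa using hμ
  simpa using h _ this

omit [CompleteSpace B] in
theorem SR_conj {x : B} {m : ℝ} (h : SR x m) (u : Bˣ) : SR (↑u⁻¹ * x * ↑u) m := by
  intro μ hμ
  apply h
  intro hx
  apply hμ
  rw [spectrum.mem_resolventSet_iff] at hx ⊢
  have e : algebraMap ℂ B μ - ↑u⁻¹ * x * ↑u = ↑u⁻¹ * (algebraMap ℂ B μ - x) * ↑u := by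
    rw [mul_sub, sub_mul, ← Algebra.commutes μ (↑u⁻¹ : B), mul_assoc (algebraMap ℂ B μ),
      Units.inv_mul, mul_one]
  rw [e]
  exact (u⁻¹.isUnit.mul hx).mul u.isUnit

omit [CompleteSpace B] in
theorem SR_smul_zero {x : B} (c : ℂ) (hc : c ≠ 0) (h : SR x 0) : SR (c • x) 0 := by
  intro μ hμ
  have h1 : c⁻¹ * μ ∈ spectrum ℂ x := by
    intro hx
    apply hμ
    rw [spectrum.mem_resolventSet_iff] at hx ⊢
    have e : algebraMap ℂ B μ - c • x = algebraMap ℂ B c * (algebraMap ℂ B (c⁻¹ * μ) - x) := by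
      rw [mul_sub, ← map_mul, ← Algebra.smul_def]
      congr 2
      field_simp
    rw [e]
    exact ((IsUnit.mk0 c hc).map (algebraMap ℂ B)).mul hx
  have h2 := h _ h1
  rw [norm_mul] at h2
  have h3 : 0 < ‖c⁻¹‖ := norm_pos_iff.mpr (inv_ne_zero hc)
  by_contra h4
  push Not at h4
  exact absurd h2 (not_le.mpr (mul_pos h3 h4))

theorem SR_commutator [NormOneClass B] {q : B} (hq : ∀ c, SR c 0 → SR (c + q) 0) (b : B) :
    SR (b * q - q * b) 0 := by
  have hq0 : SR q 0 := by simpa using hq 0 SR_zero'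
  let f : ℂ → B := fun z => q - exp (-(z • b)) * q * exp (z • b)
  have hf : Differentiable ℂ f := by
    have h1 : Differentiable ℂ fun z : ℂ => exp (z • b) := fun z =>
      (hasDerivAt_exp_smul_const (𝕂 := ℂ) b z).differentiableAt
    have h2 : Differentiable ℂ fun z : ℂ => exp (-(z • b)) := by
      have : (fun z : ℂ => exp (-(z • b))) = (fun z : ℂ => exp (z • b)) ∘ (fun z => -z) := by
        ext z
        simp
      rw [this]
      exact h1.comp differentiable_neg
    exact (differentiable_const q).sub ((h2.mul_const q).mul h1)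
  have hf0 : f 0 = 0 := by simp [f, exp_zero]
  have hfd : deriv f 0 = b * q - q * b := by
    have h1 : HasDerivAt (fun z : ℂ => exp (z • b)) b 0 := by
      simpa [exp_zero] using hasDerivAt_exp_smul_const (𝕂 := ℂ) b (0 : ℂ)
    have h2 : HasDerivAt (fun z : ℂ => exp (-(z • b))) (-b) 0 := by
      have : (fun z : ℂ => exp (-(z • b))) = (fun z : ℂ => exp (z • b)) ∘ (fun z => -z) := by
        ext z
        simp
      rw [this]
      have h3 : HasDerivAt (fun z : ℂ => exp (z • b)) b (-(0:ℂ)) := by simpa using h1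
      simpa using h3.scomp (0 : ℂ) (hasDerivAt_neg (0 : ℂ))
    have h4 := ((h2.mul_const q).mul h1).const_sub q
    have h5 := h4.deriv
    have h6 : deriv f 0 = -(-b * q * exp ((0 : ℂ) • b) + exp (-((0 : ℂ) • b)) * q * b) := h5
    rw [h6]
    simp [exp_zero]
    abel
  have hSf : ∀ z, SR (f z) 0 := by
    intro z
    have h1 : SR (exp (-(z • b)) * q * exp (z • b)) 0 := by
      let _ : NormedAlgebra ℚ B := NormedAlgebra.restrictScalars ℚ ℂ B
      have hinv : exp (-(z • b)) * exp (z • b) = 1 := by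
        rw [← exp_add_of_commute (Commute.neg_left (Commute.refl (z • b))), neg_add_cancel, exp_zero]
      have hinv' : exp (z • b) * exp (-(z • b)) = 1 := by
        rw [← exp_add_of_commute (Commute.neg_right (Commute.refl (z • b))), add_neg_cancel, exp_zero]
      let u : Bˣ := ⟨exp (z • b), exp (-(z • b)), hinv', hinv⟩
      exact SR_conj hq0 u
    have h2 := hq _ (SR_neg' h1)
    have e : -(exp (-(z • b)) * q * exp (z • b)) + q = f z := by
      simp only [f]
      abel
    rwa [e] at h2
  let g : ℂ → B := dslope f 0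
  have hg : Differentiable ℂ g := by
    rw [← differentiableOn_univ]
    exact (Complex.differentiableOn_dslope Filter.univ_mem).mpr hf.differentiableOn
  have hgz : ∀ z, z ≠ 0 → SR (g z) 0 := by
    intro z hz
    have e : g z = z⁻¹ • f z := by
      simp only [g]
      rw [dslope_of_ne f hz, slope_def_module, hf0, sub_zero, sub_zero]
    rw [e]
    exact SR_smul_zero _ (inv_ne_zero hz) (hSf z)
  have hg0 : g 0 = b * q - q * b := by
    simp only [g]
    rw [dslope_same, hfd]
  rw [← hg0]
  have h1 := liouville_SR (f := fun z => g (1 + z)) (hg.comp (by fun_prop)) (M := ‖g 0‖) (m := 0)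
    (norm_nonneg _) le_rfl
    (fun z => by
      by_cases hz : 1 + z = 0
      · simp only [hz]
        exact SR.of_norm le_rfl
      · exact (hgz _ hz).mono (norm_nonneg _))
    (by simpa using hgz 1 one_ne_zero) (-1)
  simpa using h1

/-- **Zemanek**: if `c + q` is quasinilpotent for every quasinilpotent `c`, then `q` is in the
radical. -/
theorem zemanek_qn_mem [NormOneClass B] {q : B} (hq : ∀ c, SR c 0 → SR (c + q) 0)
    (J : Ideal B) [hJ : J.IsMaximal] : q ∈ J := by
  by_contra hqJ
  have h1J : (1 : B) ∉ J := fun h => hJ.ne_top ((Ideal.eq_top_iff_one J).mpr h)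
  by_cases hd : ∀ w, w * 1 ∈ J → w * q ∈ J
  · obtain ⟨μ, hμ⟩ := two_density J h1J hd
    have hq0 : SR q 0 := by simpa using hq 0 SR_zero'
    have hμs : μ ∈ spectrum ℂ q := by
      intro hu
      rw [spectrum.mem_resolventSet_iff] at hu
      apply hJ.ne_top
      apply Ideal.eq_top_of_isUnit_mem J _ hu
      have e : algebraMap ℂ B μ - q = - (q - μ • 1) := by
        rw [Algebra.algebraMap_eq_smul_one]; abel
      rw [e]
      exact J.neg_mem hμ
    have hμ0 : μ = 0 := norm_le_zero_iff.mp (hq0 μ hμs)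
    rw [hμ0, zero_smul, sub_zero] at hμ
    exact hqJ hμ
  · push Not at hd
    obtain ⟨w, hw, hwq⟩ := hd
    rw [mul_one] at hw
    obtain ⟨s, hs⟩ := exists_mul_sub_mem J hwq 1
    have hc := SR_commutator hq (s * w)
    have h1 : (1 : ℂ) ∈ spectrum ℂ (s * w * q - q * (s * w)) := by
      intro hu
      rw [spectrum.mem_resolventSet_iff] at hu
      apply hJ.ne_top
      apply Ideal.eq_top_of_isUnit_mem J _ hu
      have e : algebraMap ℂ B 1 - (s * w * q - q * (s * w)) =
          (1 - s * (w * q)) + q * (s * w) := by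
        rw [map_one]; noncomm_ring
      rw [e]
      exact J.add_mem hs (J.mul_mem_left _ (J.mul_mem_left _ hw))
    have := hc 1 h1
    norm_num at this

theorem zemanek_qn [NormOneClass B] (hB : (⊥ : Ideal B).jacobson = ⊥) {q : B}
    (hq : ∀ c, SR c 0 → SR (c + q) 0) : q = 0 := by
  have h : q ∈ (⊥ : Ideal B).jacobson := by
    rw [Ideal.jacobson, Ideal.mem_sInf]
    rintro J ⟨-, hJ⟩
    have : J.IsMaximal := hJ
    exact zemanek_qn_mem hq J
  rw [hB] at h
  simpa using h

theorem zemanek_mem [NormOneClass B] {q : B} (hq : ∀ b m, SR b m → SR (b + q) m)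
    (J : Ideal B) [hJ : J.IsMaximal] : q ∈ J :=
  zemanek_qn_mem (fun c hc => hq c 0 hc) J

theorem zemanek [NormOneClass B] (hB : (⊥ : Ideal B).jacobson = ⊥) {q : B}
    (hq : ∀ b m, SR b m → SR (b + q) m) : q = 0 :=
  zemanek_qn hB (fun c hc => hq c 0 hc)

end Pool.Agent.Lib.Pa5bb4a2
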