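import Mathlib
import Pool.Agent.Lib.Pa5bb4a.SR
import Pool.Agent.Lib.Pa5bb4a2.Zemanek

/-!
Automatic continuity of surjective unital invertibility preserving linear maps onto
semisimple Banach algebras (after helper41's version for C*-algebras).
-/

open Filter Topology Complex Pool.Agent.Lib.Pa5bb4a

namespace Pool.Agent.Lib.Pa5bb4a2.ContGen

variable {A B : Type*} [NormedRing A] [NormedAlgebra ℂ A] [CompleteSpace A]
  [NormedRing B] [NormedAlgebra ℂ B] [CompleteSpace B]

omit [CompleteSpace A] [CompleteSpace B] in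
/-- `σ(T x) ⊆ σ(x)`. -/
theorem spectrum_subset {T : A →ₗ[ℂ] B} (h1 : T 1 = 1) (hinv : ∀ x, IsUnit x → IsUnit (T x))
    (x : A) : spectrum ℂ (T x) ⊆ spectrum ℂ x := by
  intro μ hμ hc
  apply hμ
  have h2 := hinv _ hc
  have h3 : T (algebraMap ℂ A μ - x) = algebraMap ℂ B μ - T x := by
    rw [map_sub, Algebra.algebraMap_eq_smul_one, map_smul, h1, Algebra.algebraMap_eq_smul_one]
  rwa [h3] at h2

theorem SR_map {T : A →ₗ[ℂ] B} (h1 : T 1 = 1) (hinv : ∀ x, IsUnit x → IsUnit (T x))
    (x : A) : SR (T x) (‖x‖ * ‖(1 : A)‖) :=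
  fun _ hμ => spectrum.norm_le_norm_mul_of_mem (spectrum_subset h1 hinv x hμ)

theorem aux_separating [NormOneClass B] {T : A →ₗ[ℂ] B} (h1 : T 1 = 1) (hs : Function.Surjective T)
    (hinv : ∀ x, IsUnit x → IsUnit (T x)) {v : ℕ → A} {b : B} (hv : Tendsto v atTop (𝓝 0))
    (hb : Tendsto (fun n => T (v n)) atTop (𝓝 b)) {c : B} (hc : SR c 0) : SR (b + c) 0 := by
  have : Nontrivial B := NormOneClass.nontrivial
  obtain ⟨y, hy⟩ := hs (b + c)
  set K := ‖(1 : A)‖
  have hK : 0 ≤ K := norm_nonneg _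
  -- main estimate
  have main : ∀ ε > 0, SR (b + c) (Real.sqrt (2 * ε) * Real.sqrt (‖y‖ * K + 2)) := by
    intro ε hε
    obtain ⟨N, hN, hN0⟩ := ((hc.eventually_pow le_rfl hε).and (eventually_ne_atTop 0)).exists
    have hopen : IsOpen {w : B | ‖w ^ N‖ < ε ^ N} :=
      isOpen_lt (by fun_prop) continuous_const
    obtain ⟨η, hη, hball⟩ := Metric.isOpen_iff.mp hopen c hN
    -- choose the radius
    obtain ⟨u, hu0, hu⟩ : ∃ u : ℝ, 0 < u ∧ Real.exp (-u) * (‖b‖ + 1) < η / 2 := by
      have h2 : Tendsto (fun u : ℝ => Real.exp (-u) * (‖b‖ + 1)) atTop (𝓝 (0 * (‖b‖ + 1))) :=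
        (Real.tendsto_exp_neg_atTop_nhds_zero).mul_const _
      rw [zero_mul] at h2
      exact ((eventually_gt_atTop 0).and (h2.eventually_lt_const (half_pos hη))).exists
    -- choose `n`
    have e1 : ∀ᶠ n in atTop, ‖T (v n)‖ < ‖b‖ + 1 :=
      hb.norm.eventually_lt_const (by linarith)
    have e2 : ∀ᶠ n in atTop, ‖b - T (v n)‖ < η / 2 := by
      have h3 : Tendsto (fun n => ‖b - T (v n)‖) atTop (𝓝 ‖b - b‖) :=
        (tendsto_const_nhds.sub hb).norm
      rw [sub_self, norm_zero] at h3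
      exact h3.eventually_lt_const (half_pos hη)
    have e3 : ∀ᶠ n in atTop, (Real.exp u * ‖v n‖ + ‖y‖ + ‖v n‖) * K < ‖y‖ * K + 1 := by
      have h3 : Tendsto (fun n => (Real.exp u * ‖v n‖ + ‖y‖ + ‖v n‖) * K) atTop
          (𝓝 ((Real.exp u * ‖(0 : A)‖ + ‖y‖ + ‖(0 : A)‖) * K)) :=
        ((((hv.norm.const_mul _).add tendsto_const_nhds).add hv.norm).mul_const _)
      rw [norm_zero, mul_zero, zero_add, add_zero] at h3
      exact h3.eventually_lt_const (by linarith)
    obtain ⟨n, ⟨hn1, hn2⟩, hn3⟩ := ((e1.and e2).and e3).exists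
    -- the entire function
    set f : ℂ → B := fun z => z • T (v n) + (b + c - T (v n)) with hf
    have hfT : ∀ z, f z = T (z • v n + (y - v n)) := by
      intro z
      simp only [hf, map_add, map_sub, map_smul, hy]
    have hfd : Differentiable ℂ f := by
      intro z
      simp only [hf]
      fun_prop
    have hl : ∀ z : ℂ, ‖z‖ = Real.exp (-u) → SR (f z) ε := by
      intro z hz
      have hmem : f z ∈ Metric.ball c η := by
        rw [mem_ball_iff_norm]
        have : f z - c = z • T (v n) + (b - T (v n)) := by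
          simp only [hf]; abel
        rw [this]
        calc ‖z • T (v n) + (b - T (v n))‖ ≤ ‖z • T (v n)‖ + ‖b - T (v n)‖ := norm_add_le _ _
          _ = Real.exp (-u) * ‖T (v n)‖ + ‖b - T (v n)‖ := by rw [norm_smul, hz]
          _ < η / 2 + η / 2 := by
            apply add_lt_add _ hn2
            exact lt_of_le_of_lt (mul_le_mul_of_nonneg_left hn1.le (Real.exp_pos _).le) hu
          _ = η := by ring
      exact SR.of_pow hN0 hε.le (le_of_lt (hball hmem))
    have hu' : ∀ z : ℂ, ‖z‖ = Real.exp u → SR (f z) (‖y‖ * K + 1) := by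
      intro z hz
      rw [hfT]
      refine (SR_map h1 hinv _).mono ?_
      refine le_trans ?_ hn3.le
      apply mul_le_mul_of_nonneg_right _ hK
      calc ‖z • v n + (y - v n)‖ ≤ ‖z • v n‖ + ‖y - v n‖ := norm_add_le _ _
        _ ≤ Real.exp u * ‖v n‖ + (‖y‖ + ‖v n‖) := by
          rw [norm_smul, hz]
          gcongr
          exact norm_sub_le _ _
        _ = _ := by ring
    have key := three_circles hfd (l := -u) (u := u) (m₁ := ε) (m₂ := ‖y‖ * K + 1)
      (n₁ := 2 * ε) (n₂ := ‖y‖ * K + 2) (by linarith) hε.le (by positivity) (by linarith)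
      (by linarith) hl hu' (z := 0) (by simp; linarith) (by simp; linarith)
    have e4 : ((0 : ℂ).re - -u) / (u - -u) = 1 / 2 := by
      simp only [Complex.zero_re]
      field_simp
      ring
    rw [e4, Complex.exp_zero] at key
    have e5 : f 1 = b + c := by simp [hf]
    rw [e5] at key
    rw [Real.sqrt_eq_rpow, Real.sqrt_eq_rpow]
    convert key using 3
    norm_num
  intro μ hμ
  have hlim : Tendsto (fun ε : ℝ => Real.sqrt (2 * ε) * Real.sqrt (‖y‖ * K + 2)) (𝓝[>] 0)
      (𝓝 (Real.sqrt (2 * 0) * Real.sqrt (‖y‖ * K + 2))) := by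
    apply tendsto_nhdsWithin_of_tendsto_nhds
    apply Continuous.tendsto
    fun_prop
  rw [mul_zero, Real.sqrt_zero, zero_mul] at hlim
  exact ge_of_tendsto hlim (eventually_mem_nhdsWithin.mono fun ε hε => main ε hε μ hμ)

/-- Automatic continuity. -/
theorem continuous_of_inv [NormOneClass B] (hB : (⊥ : Ideal B).jacobson = ⊥)
    {T : A →ₗ[ℂ] B} (h1 : T 1 = 1)
    (hs : Function.Surjective T) (hinv : ∀ x, IsUnit x → IsUnit (T x)) : Continuous T := by
  apply LinearMap.continuous_of_seq_closed_graph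
  intro u x y hu hTu
  have hv : Tendsto (fun n => u n - x) atTop (𝓝 0) := by
    have := hu.sub_const x
    rwa [sub_self] at this
  have hb : Tendsto (fun n => T (u n - x)) atTop (𝓝 (y - T x)) := by
    simp only [map_sub]
    exact hTu.sub_const _
  have h0 : y - T x = 0 := by
    apply zemanek_qn hB
    intro c hc
    rw [add_comm]
    exact aux_separating h1 hs hinv hv hb hc
  exact sub_eq_zero.mp h0

end Pool.Agent.Lib.Pa5bb4a2.ContGen
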