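import Mathlib

/-!
Renorming: every nontrivial complex Banach algebra is isomorphic, as an algebra, to a complete
normed algebra with `‖1‖ = 1` (the left regular representation).
-/

namespace Pool.Agent.Lib.Pa5bb4a2.Renorm

variable (B : Type*) [NormedRing B] [NormedAlgebra ℂ B]

/-- The left regular representation. -/
noncomputable def L : B →ₐ[ℂ] (B →L[ℂ] B) :=
  AlgHom.ofLinearMap ((ContinuousLinearMap.mul ℂ B) : B →ₗ[ℂ] (B →L[ℂ] B))
    (by ext; simp) (by intro x y; ext; simp [mul_assoc])

theorem L_apply (b c : B) : L B b c = b * c := rfl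

theorem norm_le (b : B) : ‖b‖ ≤ ‖(1 : B)‖ * ‖L B b‖ := by
  have h := (L B b).le_opNorm 1
  rw [L_apply, mul_one] at h
  rwa [mul_comm]

theorem L_injective : Function.Injective (L B) := by
  rw [injective_iff_map_eq_zero]
  intro b hb
  have h := norm_le B b
  rw [hb, norm_zero, mul_zero] at h
  exact norm_le_zero_iff.mp h

theorem isClosed_S [CompleteSpace B] : IsClosed ((L B).range : Set (B →L[ℂ] B)) := by
  have h1 : AntilipschitzWith ‖(1 : B)‖₊ (L B) := by
    apply AddMonoidHomClass.antilipschitz_of_bound
    intro x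
    exact norm_le B x
  have h2 : UniformContinuous (L B) := by
    have : UniformContinuous (ContinuousLinearMap.mul ℂ B) :=
      (ContinuousLinearMap.mul ℂ B).uniformContinuous
    exact this
  have h3 := h1.isClosed_range h2
  have h4 : ((L B).range : Set (B →L[ℂ] B)) = Set.range (L B) := AlgHom.coe_range _
  rw [h4]
  exact h3

/-- The renormed algebra. -/
def Ren : Type _ := (L B).range

noncomputable instance : NormedRing (Ren B) := inferInstanceAs (NormedRing (L B).range)
noncomputable instance : NormedAlgebra ℂ (Ren B) := inferInstanceAs (NormedAlgebra ℂ (L B).range)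
instance [CompleteSpace B] : CompleteSpace (Ren B) := (isClosed_S B).completeSpace_coe
instance [Nontrivial B] : NormOneClass (Ren B) where
  norm_one := by
    change ‖(1 : B →L[ℂ] B)‖ = 1
    exact norm_one

/-- The isomorphism. -/
noncomputable def e : B ≃ₐ[ℂ] (Ren B) := AlgEquiv.ofInjective (L B) (L_injective B)

theorem jacobson_Ren (h : (⊥ : Ideal B).jacobson = ⊥) : (⊥ : Ideal (Ren B)).jacobson = ⊥ := by
  let f : (Ren B) →+* B := ((e B).symm : (Ren B) →+* B)
  have hf : Function.Surjective f := (e B).symm.surjective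
  have hfi : Function.Injective f := (e B).symm.injective
  have h1 := Ideal.comap_jacobson_of_surjective hf (K := (⊥ : Ideal B))
  have h2 : Ideal.comap f (⊥ : Ideal B) = ⊥ := by
    ext x
    rw [Ideal.mem_comap, Ideal.mem_bot, Ideal.mem_bot]
    exact map_eq_zero_iff f hfi
  rw [h, h2] at h1
  exact h1.symm

/-- Reduction of the final statement to targets with `‖1‖ = 1`. -/
theorem reduction {A : Type*} [NormedRing A] [NormedAlgebra ℂ A] {B : Type*} [NormedRing B]
    [NormedAlgebra ℂ B] [CompleteSpace B] (hB : (⊥ : Ideal B).jacobson = ⊥) (T : A →ₗ[ℂ] B)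
    (h1 : T 1 = 1) (hs : Function.Surjective T) (hinv : ∀ x, IsUnit x → IsUnit (T x))
    (main : [NormOneClass (Ren B)] → (⊥ : Ideal (Ren B)).jacobson = ⊥ →
      ∀ T' : A →ₗ[ℂ] (Ren B), T' 1 = 1 → Function.Surjective T' →
        (∀ x, IsUnit x → IsUnit (T' x)) → ∀ x y, T' (x * y + y * x) = T' x * T' y + T' y * T' x)
    (x y : A) : T (x * y + y * x) = T x * T y + T y * T x := by
  rcases subsingleton_or_nontrivial B with hB' | hB'
  · exact Subsingleton.elim _ _
  have := main (jacobson_Ren B hB) ((e B).toLinearMap.comp T)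
    (by simp [h1]) ((e B).surjective.comp hs) (fun x hx => (hinv x hx).map (e B)) x y
  apply (e B).injective
  simpa using this

end Pool.Agent.Lib.Pa5bb4a2.Renorm
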